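import Pool.Agent.R667.Skula.Main

/-!
# MP_ad9ced: `FS(P)` is canonically Skula for every well-founded poset `P` of finite width

Paper proof by helper823, formalized by helper667.
-/

open Set

universe u

namespace Pool.Agent.Results.MP_ad9ced_gt.FiniteWidthCanonicallySkula

open Pool.Agent.R667.Skula

/-- A clopen selector for `X`. -/
structure ClopenSelector (X : Type u) [TopologicalSpace X] (U : X → Set X) : Prop where
  clopen : ∀ x, IsClopen (U x)
  mem : ∀ x, x ∈ U x
  asymm : ∀ x y, x ≠ y → x ∉ U y ∨ y ∉ U x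
  trans : ∀ x, ∀ y ∈ U x, U y ⊆ U x

/-- `Y` is a compact scattered space whose last nonempty derivative is the single point `e`. -/
def UnitaryWithLastPt (Y : Type u) [TopologicalSpace Y] (e : Y) : Prop :=
  CompactSpace Y ∧ Scattered Y ∧ ∃ α : Ordinal.{u}, CB Y α = {e} ∧ CB Y (α + 1) = ∅

/-- The compact Hausdorff space `X` admits a canonical clopen selector. -/
def HasCanonicalSelector (X : Type u) [TopologicalSpace X] : Prop :=
  CompactSpace X ∧ T2Space X ∧
    ∃ U : X → Set X, ∃ h : ClopenSelector X U, ∀ x, UnitaryWithLastPt (U x) ⟨x, h.mem x⟩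

/-- `P` is the union of `n` chains for some finite `n`. -/
def FiniteWidth (P : Type u) [PartialOrder P] : Prop :=
  ∃ (n : ℕ) (c : Fin n → Set P), (∀ i, IsChain (· ≤ ·) (c i)) ∧ ⋃ i, c i = univ

theorem FiniteWidth.narrow {P : Type u} [PartialOrder P] (h : FiniteWidth P) : Narrow P := by
  obtain ⟨n, c, hc, hu⟩ := h
  intro A hA
  have h1 : A = ⋃ i, A ∩ c i := by rw [← inter_iUnion, hu, inter_univ]
  rw [h1]
  refine finite_iUnion fun i => Set.Subsingleton.finite ?_
  rintro x ⟨hx, hx'⟩ y ⟨hy, hy'⟩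
  by_contra hne
  rcases hc i hx' hy' hne with h2 | h2
  · exact hA hx hy hne h2
  · exact hA hy hx (Ne.symm hne) h2

/-- If `P` has no infinite strictly decreasing sequence and is a finite union of chains, then the
space `FS(P)` of the final subsets of `P` has a canonical clopen selector. -/
theorem result (P : Type u) [PartialOrder P] (hwf : ¬ ∃ f : ℕ → P, StrictAnti f)
    (hwidth : FiniteWidth P) : HasCanonicalSelector (FinalSets P) := by
  have hQ : IsEmpty (ℚ ↪o P) := by
    refine ⟨fun e => hwf ⟨fun n => e (-(n : ℚ)), fun m n hmn => ?_⟩⟩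
    refine e.strictMono ?_
    have : (m : ℚ) < n := by exact_mod_cast hmn
    linarith
  obtain ⟨h1, h2, U, hU, h3⟩ := canonicallySkula hwidth.narrow hQ
  refine ⟨h1, h2, U, ⟨hU.clopen, hU.mem, ?_, ?_⟩, ?_⟩
  · intro x y hne
    by_contra hcon
    push Not at hcon
    exact (hU.trans x y hcon.2 (Ne.symm hne)).2 hcon.1
  · intro x y hy
    by_cases hyx : y = x
    · rw [hyx]
    · exact (hU.trans x y hy hyx).1
  · intro x
    obtain ⟨h4, h5, h6⟩ := h3 x
    refine ⟨h4, h5, _, h6, ?_⟩
    rw [eq_empty_iff_forall_notMem]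
    intro y hy
    rw [mem_CB_succ, h6] at hy
    obtain ⟨hy1, hy2⟩ := hy
    rw [accPt_iff_nhds] at hy2
    obtain ⟨z, ⟨-, hz⟩, hzy⟩ := hy2 univ Filter.univ_mem
    exact hzy (hz.trans hy1.symm)

end Pool.Agent.Results.MP_ad9ced_gt.FiniteWidthCanonicallySkula
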